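import Pool.Agent.H31.FW.TargetsL

/-!
# The complete sum in a finite ring is supported on the stationary points
-/

set_option autoImplicit false

open Finset

namespace Pool.Agent.H48.FW.LS

open Pool.Agent.H31.FW
open Pool.Agent.H29.TC (MC AC Stat unit_add_nil hom_sum stat_pair)

variable {R : Type} [CommRing R]

/-- the shift by an element of `I` -/
theorem shift' (I : Ideal R) (b : R) (η θ : R → ℂ) (hη : MC η) (hθ : AC θ)
    (hI : ∀ x ∈ I, IsNilpotent x)
    (hbI : ∀ x ∈ I, ∀ y ∈ I, b * (x * y) = 0) (a u : R) (ha : a * (a + b) * u = 1) (k : R)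
    (hk : k ∈ I) :
    η (a + k + b) * (starRingEnd ℂ) (η (a + k)) * θ (a + k) =
      (η (a + b) * (starRingEnd ℂ) (η a) * θ a) * (η (1 - k * b * u) * θ k) := by
  have hau : IsUnit a := by
    refine IsUnit.of_mul_eq_one ((a + b) * u) ?_
    rw [← ha]; ring
  have haku : IsUnit (a + k) := unit_add_nil hau (hI k hk)
  have hkk : b * (k * k) = 0 := hbI k hk k hk
  have h1 : (a + k + b) * a = (a + k) * ((a + b) * (1 - k * b * u)) := by
    linear_combination (k * b) * ha + (a + b) * u * hkk
  have h2 := congrArg η h1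
  rw [hη.mul, hη.mul, hη.mul] at h2
  have h3 := hη.conj_mul hau
  have h4 := hη.conj_mul haku
  rw [hθ.add]
  have h5 : η (a + k + b) * (starRingEnd ℂ) (η (a + k)) =
      η (a + b) * (starRingEnd ℂ) (η a) * η (1 - k * b * u) := by
    calc η (a + k + b) * (starRingEnd ℂ) (η (a + k))
        = (η (a + k + b) * η a) * ((starRingEnd ℂ) (η a) * (starRingEnd ℂ) (η (a + k))) := by
          linear_combination (-(η (a + k + b) * (starRingEnd ℂ) (η (a + k)))) * h3
      _ = (η (a + k) * (η (a + b) * η (1 - k * b * u))) *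
          ((starRingEnd ℂ) (η a) * (starRingEnd ℂ) (η (a + k))) := by rw [h2]
      _ = _ := by
          linear_combination (η (a + b) * η (1 - k * b * u) * (starRingEnd ℂ) (η a)) * h4
  linear_combination (θ a * θ k) * h5

theorem unit_sub_nil {a k : R} (ha : IsUnit (a + k)) (hk : IsNilpotent k) : IsUnit a := by
  have h1 := unit_add_nil ha hk.neg
  rwa [add_neg_cancel_right] at h1

open scoped Classical in
/-- The sum is supported on the stationary points. -/
theorem sum_stat' [Fintype R] (I : Ideal R) (b : R) (η θ : R → ℂ) (hη : MC η) (hθ : AC θ)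
    (hI : ∀ x ∈ I, IsNilpotent x) (hbI : ∀ x ∈ I, ∀ y ∈ I, b * (x * y) = 0) :
    ‖∑ a : R, η (a + b) * (starRingEnd ℂ) (η a) * θ a‖ ≤ (Stat I b η θ).ncard := by
  set F : R → ℂ := fun a => η (a + b) * (starRingEnd ℂ) (η a) * θ a with hF
  have hFn : ∀ a, ‖F a‖ ≤ 1 := by
    intro a
    simp only [hF, norm_mul, RCLike.norm_conj, hθ.norm, mul_one]
    exact mul_le_one₀ (hη.norm_le _) (norm_nonneg _) (hη.norm_le _)
  have hcard : (0 : ℝ) < Fintype.card I := by
    exact_mod_cast Fintype.card_pos
  have h1 : (Fintype.card I : ℂ) * ∑ a, F a = ∑ a, ∑ k : I, F (a + k) := by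
    rw [Finset.sum_comm]
    have h2 : ∀ k : I, ∑ a, F (a + k) = ∑ a, F a := fun k =>
      Equiv.sum_comp (Equiv.addRight (k : R)) F
    simp only [h2, Finset.sum_const, Finset.card_univ, nsmul_eq_mul]
  have h2 : ∀ a, ‖∑ k : I, F (a + k)‖ ≤ if a ∈ Stat I b η θ then (Fintype.card I : ℝ) else 0 := by
    intro a
    by_cases ha : IsUnit a ∧ IsUnit (a + b)
    · obtain ⟨ha, hab⟩ := ha
      obtain ⟨u, hu⟩ := (ha.mul hab).exists_right_inv
      have h3 : ∀ k : I, F (a + k) = F a * (η (1 - k * b * u) * θ k) := fun k =>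
        shift' I b η θ hη hθ hI hbI a u hu (k : R) k.2
      simp only [h3]
      rw [← Finset.mul_sum]
      split_ifs with hs
      · obtain ⟨u', hu', hk⟩ := hs
        have huu : u' = u := by
          linear_combination u * hu' - u' * hu
        subst huu
        have h4 : ∑ k : I, (η (1 - k * b * u') * θ k) = Fintype.card I := by
          rw [Finset.sum_congr rfl fun (k : I) _ => hk (k : R) k.2]
          simp
        rw [h4, norm_mul]
        calc ‖F a‖ * ‖((Fintype.card I : ℕ) : ℂ)‖ ≤ 1 * (Fintype.card I : ℝ) := by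
              rw [Complex.norm_natCast]
              exact mul_le_mul_of_nonneg_right (hFn a) hcard.le
          _ = _ := one_mul _
      · have h4 : ∑ k : I, (η (1 - k * b * u) * θ k) = 0 := by
          refine hom_sum (fun k : I => η (1 - k * b * u) * θ k) (fun x y => ?_) ?_
          · have h5 : (1 - ((x + y : I) : R) * b * u) = (1 - x * b * u) * (1 - y * b * u) := by
              have := hbI x x.2 y y.2
              push_cast
              linear_combination (-(b * u ^ 2)) * this
            rw [h5, hη.mul]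
            have h6 : θ ((x + y : I) : R) = θ x * θ y := by
              push_cast
              exact hθ.add _ _
            rw [h6]
            ring
          · by_contra hc
            push Not at hc
            exact hs ⟨u, hu, fun k hk => hc ⟨k, hk⟩⟩
        rw [h4, mul_zero, norm_zero]
    · have h3 : ∀ k : I, F (a + k) = 0 := by
        intro k
        have hk := hI k k.2
        by_cases h4 : IsUnit (a + (k : R))
        · have h5 : IsUnit a := unit_sub_nil h4 hk
          have h6 : ¬ IsUnit (a + (k : R) + b) := by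
            intro h7
            apply ha
            refine ⟨h5, unit_sub_nil (k := (k : R)) ?_ hk⟩
            rwa [add_right_comm] at h7
          simp only [hF, hη.zero _ h6, zero_mul]
        · simp only [hF, hη.zero _ h4, map_zero, mul_zero, zero_mul]
      simp only [h3, Finset.sum_const_zero, norm_zero]
      split_ifs
      · exact hcard.le
      · exact le_refl 0
  have h3 : (Fintype.card I : ℝ) * ‖∑ a, F a‖ ≤ (Fintype.card I : ℝ) * (Stat I b η θ).ncard := by
    calc (Fintype.card I : ℝ) * ‖∑ a, F a‖ = ‖(Fintype.card I : ℂ) * ∑ a, F a‖ := by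
          rw [norm_mul, Complex.norm_natCast]
      _ = ‖∑ a, ∑ k : I, F (a + k)‖ := by rw [h1]
      _ ≤ ∑ a, ‖∑ k : I, F (a + k)‖ := norm_sum_le _ _
      _ ≤ ∑ a, if a ∈ Stat I b η θ then (Fintype.card I : ℝ) else 0 :=
          Finset.sum_le_sum fun a _ => h2 a
      _ = _ := by
          rw [← Finset.sum_filter, Finset.sum_const, nsmul_eq_mul, mul_comm]
          congr 2
          rw [Set.ncard_eq_toFinset_card']
          congr 1
          ext x
          simp
  exact le_of_mul_le_mul_left h3 hcard

theorem pf_LS : Q_LS := by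
  intro R _ _ I η θ h hη hp hθ hI hII
  have h1 := sum_stat' I h η θ hη hθ hI hII
  have hprim : Pool.Agent.H29.TC.Prim η := by
    intro w hw
    by_contra h0
    obtain ⟨r, -, hr⟩ := hp w h0
    exact hr (hw r)
  by_cases he : (Stat I h η θ).Nonempty
  · right
    obtain ⟨y, hy⟩ := he
    obtain ⟨u, hu, -⟩ := id hy
    refine ⟨y, IsUnit.of_mul_eq_one ((y + h) * u) (by rw [← hu]; ring),
      IsUnit.of_mul_eq_one (y * u) (by rw [← hu]; ring), ?_⟩
    refine h1.trans ?_
    rw [Nat.cast_le]
    change _ ≤ Nat.card ({x : R | ∀ z ∈ I, z * h * ((x - y) * (x + y + h)) = 0} : Set R)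
    rw [Nat.card_coe_set_eq]
    refine Set.ncard_le_ncard (fun x hx z hz => ?_) (Set.toFinite _)
    have h2 := stat_pair I h η θ hη hprim hII x y hx hy z hz
    rw [← h2]
    ring
  · left
    rw [Set.not_nonempty_iff_eq_empty.1 he, Set.ncard_empty, Nat.cast_zero] at h1
    exact norm_le_zero_iff.1 h1

end Pool.Agent.H48.FW.LS
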